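import Mathlib
import Pool.Agent.NEI.Final

/-!
# The specialisation of `Δ_{s_λ} ∇ E_{n,k}` at `t = 1/q`, for `gcd (n, |λ|)` dividing `k`

All definitions are in `Pool/Agent/NEK/Defs.lean`, `Pool/Agent/NEK/Defs2.lean` and
`Pool/Agent/NEI/Defs.lean`.
-/

set_option autoImplicit false

namespace Pool.Agent.Results.MP_44957e_co.SpecialisationAtInverse

open Pool.Agent.NEK Pool.Agent.NEI

/-- Let `1 ≤ k ≤ n` and let `λ` be a nonempty partition such that `gcd (n, |λ|)` divides `k`.  Then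
`Δ_{s_λ} ∇ E_{n,k}` is regular at `t = 1/q`, and a power of `q` times its value there is a
combination of Schur functions with coefficients in `ℕ[q]`. -/
theorem result (n : ℕ) (hn : 1 ≤ n)
    (H : List ℕ → Lam) (hH : IsMac n H)
    (lam : List ℕ) (m : ℕ) (hlam : IsPart m lam) (hm : 1 ≤ m)
    (nabla delta : Lam →ₗ[K] Lam)
    (hnabla : ∀ μ, IsPart n μ → nabla (H μ) = Tm μ • H μ)
    (hdelta : ∀ μ, IsPart n μ → delta (H μ) = ev (Bp μ) (sch lam) • H μ)
    (E : ℕ → Lam) (hE : IsE n E)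
    (k : ℕ) (hk1 : 1 ≤ k) (hk2 : k ≤ n) (hgcd : Nat.gcd n m ∣ k) :
    ∃ (F1 : Lam1) (a : ℕ), LamAtInv (delta (nabla (E k))) F1 ∧ qq ^ a • F1 ∈ SPos1 n :=
  final3 n hn H hH lam m hlam hm nabla delta hnabla hdelta E hE k hk1 hk2 hgcd

end Pool.Agent.Results.MP_44957e_co.SpecialisationAtInverse
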