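import Mathlib
import Pool.Agent.NEK.Final2

/-!
# The specialisation of `Δ_{s_λ} ∇ E_{n,k}` at `q = 1`, for all `n, k, λ`

All definitions are in `Pool/Agent/NEK/Defs.lean` and `Pool/Agent/NEK/Defs2.lean`.
-/

set_option autoImplicit false

namespace Pool.Agent.Results.MP_44957e_co.SpecialisationAtOne

open Pool.Agent.NEK

/-- For `1 ≤ k ≤ n` and every partition `λ`, the symmetric function `Δ_{s_λ} ∇ E_{n,k}` is regular
at `q = 1`, and its value there is a combination of products of elementary symmetric functions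
(`EPos n`), and also of Schur functions (`SPos1 n`), with coefficients in `ℕ[t]`. -/
theorem result (n : ℕ) (hn : 1 ≤ n)
    (H : List ℕ → Lam) (hH : IsMac n H)
    (lam : List ℕ) (m : ℕ) (hlam : IsPart m lam)
    (nabla delta : Lam →ₗ[K] Lam)
    (hnabla : ∀ μ, IsPart n μ → nabla (H μ) = Tm μ • H μ)
    (hdelta : ∀ μ, IsPart n μ → delta (H μ) = ev (Bp μ) (sch lam) • H μ)
    (E : ℕ → Lam) (hE : IsE n E)
    (k : ℕ) (hk1 : 1 ≤ k) (hk2 : k ≤ n) :
    ∃ F1 : Lam1, LamAtOne (delta (nabla (E k))) F1 ∧ F1 ∈ EPos n ∧ F1 ∈ SPos1 n :=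
  final2 n hn H hH lam m hlam nabla delta hnabla hdelta E hE k hk1 hk2

end Pool.Agent.Results.MP_44957e_co.SpecialisationAtOne
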