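import Mathlib
import Pool.Agent.NE3.Final

/-!
# Schur positivity of `Δ_{s_λ} ∇ E_{n,n-2}`

All definitions are in `Pool/Agent/NEK/Defs.lean`.
-/

set_option autoImplicit false

namespace Pool.Agent.Results.MP_44957e_co.ThirdPiece

open Pool.Agent.NEK

/-- For `n ≥ 3` and every partition `λ`, the symmetric function `Δ_{s_λ} ∇ E_{n,n-2}` is a
combination of Schur functions with coefficients in `ℕ[q,t]`. -/
theorem result (n : ℕ) (hn : 3 ≤ n)
    (H : List ℕ → Lam) (hH : IsMac n H)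
    (lam : List ℕ) (m : ℕ) (hlam : IsPart m lam)
    (nabla delta : Lam →ₗ[K] Lam)
    (hnabla : ∀ μ, IsPart n μ → nabla (H μ) = Tm μ • H μ)
    (hdelta : ∀ μ, IsPart n μ → delta (H μ) = ev (Bp μ) (sch lam) • H μ)
    (E : ℕ → Lam) (hE : IsE n E) :
    delta (nabla (E (n - 2))) ∈ SPos n :=
  Pool.Agent.NE3.final3 n hn H hH lam m hlam nabla delta hnabla hdelta E hE

end Pool.Agent.Results.MP_44957e_co.ThirdPiece
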