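import Mathlib
import Pool.Agent.NEK.Final

/-!
# Schur positivity of `Δ_{s_λ} ∇ E_{n,k}` for `k ≥ n - 1`

All definitions are in `Pool/Agent/NEK/Defs.lean`.
-/

set_option autoImplicit false

namespace Pool.Agent.Results.MP_44957e_co.TopTwoPieces

open Pool.Agent.NEK

/-- For `n ≥ 2`, `k ∈ {n-1, n}` and every partition `λ`, the symmetric function
`Δ_{s_λ} ∇ E_{n,k}` is a combination of Schur functions with coefficients in `ℕ[q,t]`. -/
theorem result (n : ℕ) (hn : 2 ≤ n)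
    (H : List ℕ → Lam) (hH : IsMac n H)
    (lam : List ℕ) (m : ℕ) (hlam : IsPart m lam)
    (nabla delta : Lam →ₗ[K] Lam)
    (hnabla : ∀ μ, IsPart n μ → nabla (H μ) = Tm μ • H μ)
    (hdelta : ∀ μ, IsPart n μ → delta (H μ) = ev (Bp μ) (sch lam) • H μ)
    (E : ℕ → Lam) (hE : IsE n E)
    (k : ℕ) (hk1 : n - 1 ≤ k) (hk2 : k ≤ n) :
    delta (nabla (E k)) ∈ SPos n :=
  final n hn H hH lam m hlam nabla delta hnabla hdelta E hE k hk1 hk2

end Pool.Agent.Results.MP_44957e_co.TopTwoPieces
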